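import Pool.Agent.helper16.Cube.Star

/-!
# The cubical dimension of every starlike tree
-/

namespace Pool.Agent.Results.MP_5dded2_co.StarlikeCubicalDimension

open Finset SimpleGraph Pool.Agent.helper16 Pool.Agent.helper16.Cube

/-- The hypercube graph `Q_n`: vertices are the 0-1 strings of length `n`, two of them are
adjacent when they differ in exactly one coordinate. -/
def cube (n : ℕ) : SimpleGraph (Fin n → Bool) where
  Adj x y := hammingDist x y = 1
  symm := ⟨fun x y h => by rw [hammingDist_comm]; exact h⟩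
  loopless := ⟨fun x h => by simp at h⟩

/-- The starlike tree `S(a_1, …, a_k)`: `none` is the centre and `some ⟨i, j⟩` is the vertex of
the `i`-th branch at distance `j + 1` from the centre (`j < a_i`). -/
def starlike {k : ℕ} (a : Fin k → ℕ) : SimpleGraph (Option (Σ i : Fin k, Fin (a i))) :=
  SimpleGraph.fromRel fun x y => match x, y with
    | none, some ⟨_, j⟩ => (j : ℕ) = 0
    | some ⟨i, j⟩, some ⟨i', j'⟩ => i = i' ∧ (j' : ℕ) = j + 1
    | _, _ => False

/-- The cubical dimension: the least `n` for which `Q_n` has a subgraph isomorphic to `G`. -/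
noncomputable def cubicalDimension {W : Type} (G : SimpleGraph W) : ℕ :=
  sInf {n | G ⊑ cube n}

/-- The size of the larger colour class of `S(a_1, …, a_k)`: there are `∑ ⌈a_i / 2⌉` vertices at odd
distance from the centre and `1 + ∑ ⌊a_i / 2⌋` at even distance. -/
def largerClass {k : ℕ} (a : Fin k → ℕ) : ℕ :=
  max (∑ i, (a i + 1) / 2) (1 + ∑ i, a i / 2)

lemma cube_adj {n : ℕ} (x y : Fin n → Bool) : (cube n).Adj x y ↔ Adj x y := by
  change hammingDist x y = 1 ↔ _
  rw [hammingDist, card_eq_one]
  constructor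
  · rintro ⟨i, hi⟩
    have h1 : i ∈ ({i | x i ≠ y i} : Finset (Fin n)) := by rw [hi]; simp
    refine ⟨i, (mem_filter.1 h1).2, ?_⟩
    intro j hj
    by_contra hne
    have h2 : j ∈ ({i | x i ≠ y i} : Finset (Fin n)) := mem_filter.2 ⟨mem_univ _, hne⟩
    rw [hi, mem_singleton] at h2
    exact hj h2
  · rintro ⟨i, h1, h2⟩
    refine ⟨i, ?_⟩
    ext j
    simp only [mem_filter, mem_univ, true_and, mem_singleton]
    constructor
    · intro h
      by_contra hne
      exact h (h2 j hne)
    · rintro rfl; exact h1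

section lower

variable {k : ℕ} {a : Fin k → ℕ} {n : ℕ}

lemma adj_centre (i : Fin k) (h : 0 < a i) : (starlike a).Adj none (some ⟨i, ⟨0, h⟩⟩) := by
  unfold starlike
  rw [SimpleGraph.fromRel_adj]
  exact ⟨by simp, Or.inl rfl⟩

lemma adj_branch (i : Fin k) (j : ℕ) (h : j + 1 < a i) :
    (starlike a).Adj (some ⟨i, ⟨j, by omega⟩⟩) (some ⟨i, ⟨j + 1, h⟩⟩) := by
  unfold starlike
  rw [SimpleGraph.fromRel_adj]
  refine ⟨?_, Or.inl ⟨rfl, rfl⟩⟩
  intro e
  simp at e

lemma par_branch (φ : Copy (starlike a) (cube n)) (i : Fin k) :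
    ∀ (j : ℕ) (h : j < a i), par (φ (some ⟨i, ⟨j, h⟩⟩)) = par (φ none) + j + 1
  | 0, h => by
      have := (cube_adj _ _).1 (φ.toHom.map_adj (adj_centre i h))
      have h2 := this.par
      simp only [Nat.cast_zero, add_zero]
      exact h2
  | j + 1, h => by
      have := (cube_adj _ _).1 (φ.toHom.map_adj (adj_branch i j h))
      have h2 := this.par
      have ih := par_branch φ i j (by omega)
      have h3 : par (φ (some ⟨i, ⟨j + 1, h⟩⟩)) = par (φ (some ⟨i, ⟨j, by omega⟩⟩)) + 1 := h2
      rw [h3, ih]
      push_cast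
      ring

/-- half of the vertices have a given parity -/
lemma card_par (m : ℕ) (c : ZMod 2) :
    2 * (univ.filter (fun x : V (m + 1) => par x = c)).card ≤ 2 ^ (m + 1) := by
  have h1 : (univ.filter (fun x : V (m + 1) => par x = c)).card ≤
      (univ.filter (fun x : V (m + 1) => ¬ par x = c)).card := by
    apply card_le_card_of_injOn (fun x => flip 0 x)
    · intro x hx
      rw [mem_coe, mem_filter] at hx
      rw [mem_coe, mem_filter]
      refine ⟨mem_univ _, ?_⟩
      rw [par_flip, hx.2]
      intro e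
      have : (1 : ZMod 2) = 0 := by
        have := e; simp at this
      exact absurd this (by decide)
    · intro x _ y _ h
      simp only at h
      have : ∀ z : V (m + 1), flip 0 (flip 0 z) = z := by
        intro z; funext j
        by_cases hj : j = 0
        · subst hj; simp [Cube.flip]
        · simp [Cube.flip, hj]
      rw [← this x, h, this]
  have h2 := card_filter_add_card_filter_not (s := (univ : Finset (V (m + 1))))
    (fun x => par x = c)
  rw [card_univ] at h2
  simp only [Fintype.card_pi, Fintype.card_bool, prod_const, card_univ, Fintype.card_fin] at h2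
  omega

lemma k_le (ha : ∀ i, 1 ≤ a i) (φ : Copy (starlike a) (cube n)) : k ≤ n := by
  have h : ∀ i : Fin k, ∃ c : Fin n, φ (some ⟨i, ⟨0, ha i⟩⟩) = flip c (φ none) := by
    intro i
    exact adj_iff.1 ((cube_adj _ _).1 (φ.toHom.map_adj (adj_centre i (ha i))))
  choose c hc using h
  have hinj : Function.Injective c := by
    intro i j hij
    have h1 : φ (some ⟨i, ⟨0, ha i⟩⟩) = φ (some ⟨j, ⟨0, ha j⟩⟩) := by rw [hc, hc, hij]
    have h2 := φ.injective h1
    simp only [Option.some.injEq, Sigma.mk.injEq] at h2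
    exact h2.1
  have := Fintype.card_le_of_injective c hinj
  simpa using this

lemma n_pos (hk : 1 ≤ k) (ha : ∀ i, 1 ≤ a i) (φ : Copy (starlike a) (cube n)) : 1 ≤ n :=
  hk.trans (k_le ha φ)

lemma natCast_even (t : ℕ) : ((2 * t : ℕ) : ZMod 2) = 0 := by
  rw [ZMod.natCast_eq_zero_iff]; exact ⟨t, rfl⟩

lemma class_le (hk : 1 ≤ k) (ha : ∀ i, 1 ≤ a i) (φ : Copy (starlike a) (cube n)) :
    2 * largerClass a ≤ 2 ^ n := by
  obtain ⟨m, rfl⟩ : ∃ m, n = m + 1 := ⟨n - 1, by have := n_pos hk ha φ; omega⟩
  unfold largerClass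
  rw [mul_max_of_nonneg _ _ (by norm_num : (0 : ℕ) ≤ 2)]
  apply max_le
  · -- odd distance
    have h1 := card_par m (par (φ none) + 1)
    have h2 : ∑ i, (a i + 1) / 2 ≤
        (univ.filter (fun x : V (m + 1) => par x = par (φ none) + 1)).card := by
      have e : ∑ i, (a i + 1) / 2 = Fintype.card (Σ i : Fin k, Fin ((a i + 1) / 2)) := by simp
      rw [e, ← card_univ]
      apply card_le_card_of_injOn (fun p => φ (some ⟨p.1, ⟨2 * p.2, by omega⟩⟩))
      · intro p _
        rw [mem_coe, mem_filter]
        refine ⟨mem_univ _, ?_⟩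
        rw [par_branch, natCast_even]
        ring
      · intro p _ q _ h
        have h2 := φ.injective h
        obtain ⟨i, s⟩ := p
        obtain ⟨j, t⟩ := q
        simp only [Option.some.injEq, Sigma.mk.injEq] at h2
        obtain ⟨rfl, h3⟩ := h2
        simp only [heq_eq_eq, Fin.mk.injEq] at h3
        have : s = t := Fin.ext (by omega)
        rw [this]
    omega
  · -- even distance
    have h1 := card_par m (par (φ none))
    have h2 : 1 + ∑ i, a i / 2 ≤
        (univ.filter (fun x : V (m + 1) => par x = par (φ none))).card := by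
      have e : 1 + ∑ i, a i / 2 = Fintype.card (Option (Σ i : Fin k, Fin (a i / 2))) := by
        simp [add_comm]
      rw [e, ← card_univ]
      apply card_le_card_of_injOn (fun p => match p with
        | none => φ none
        | some q => φ (some ⟨q.1, ⟨2 * q.2 + 1, by omega⟩⟩))
      · intro p _
        rw [mem_coe, mem_filter]
        refine ⟨mem_univ _, ?_⟩
        match p with
        | none => rfl
        | some q =>
          simp only
          rw [par_branch, Nat.cast_add, natCast_even]
          have := two_eq_zero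
          push_cast
          linear_combination this
      · intro p _ q _ h
        match p, q with
        | none, none => rfl
        | none, some q =>
          simp only at h
          exact absurd (φ.injective h) (by simp)
        | some p, none =>
          simp only at h
          exact absurd (φ.injective h) (by simp)
        | some p, some q =>
          simp only at h
          have h2 := φ.injective h
          obtain ⟨i, s⟩ := p
          obtain ⟨j, t⟩ := q
          simp only [Option.some.injEq, Sigma.mk.injEq] at h2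
          obtain ⟨rfl, h3⟩ := h2
          simp only [heq_eq_eq, Fin.mk.injEq] at h3
          have : s = t := Fin.ext (by omega)
          rw [this]
    omega

end lower

section upper

/-- lengths in a balanced starlike tree with `2 ^ n` vertices containing the given one -/
lemma extend {k n : ℕ} (hk : 1 ≤ k) (hkn : k ≤ n) (a : Fin k → ℕ)
    (hb : 2 * largerClass a ≤ 2 ^ n) :
    ∃ a' : ℕ → ℕ, (∀ i : Fin k, a i ≤ a' i) ∧ ∑ i ∈ range n, a' i + 1 = 2 ^ n ∧
      ∃ j₀ ∈ range n, a' j₀ % 2 = 1 ∧ ∀ i ∈ range n, i ≠ j₀ → a' i % 2 = 0 := by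
  classical
  unfold largerClass at hb
  set A : ℕ → ℕ := fun i => if h : i < k then a ⟨i, h⟩ else 0 with hA
  have hAa : ∀ i : Fin k, A i = a i := by intro i; simp [hA]
  have hsumA : ∀ g : ℕ → ℕ, g 0 = 0 → ∑ i ∈ range n, g (A i) = ∑ i : Fin k, g (a i) := by
    intro g hg
    have h1 : ∑ i ∈ range n, g (A i) = ∑ i ∈ range k, g (A i) := by
      symm
      apply sum_subset
      · intro i hi; rw [mem_range] at hi ⊢; omega
      · intro i _ hi
        rw [mem_range] at hi
        simp [hA, hi, hg]
    rw [h1, ← Fin.sum_univ_eq_sum_range (fun i => g (A i)) k]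
    apply sum_congr rfl
    intro i _
    rw [hAa]
  have hs1 := hsumA (fun x => (x + 1) / 2) (by norm_num)
  have hs2 := hsumA (fun x => x / 2) (by norm_num)
  have hm1 : 2 * ∑ i : Fin k, (a i + 1) / 2 ≤ 2 ^ n :=
    (Nat.mul_le_mul_left 2 (le_max_left _ _)).trans hb
  have hm2 : 2 * (1 + ∑ i : Fin k, a i / 2) ≤ 2 ^ n :=
    (Nat.mul_le_mul_left 2 (le_max_right _ _)).trans hb
  -- the special branch
  obtain ⟨j₀, hj₀k, hj₀⟩ : ∃ j₀, j₀ < k ∧ (A j₀ % 2 = 1 ∨ ∀ i ∈ range n, A i % 2 = 0) := by
    by_cases h : ∃ j, j < k ∧ A j % 2 = 1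
    · obtain ⟨j, hj, hj'⟩ := h
      exact ⟨j, hj, Or.inl hj'⟩
    · push Not at h
      refine ⟨0, hk, Or.inr ?_⟩
      intro i _
      by_cases hi : i < k
      · have := h i hi; omega
      · simp [hA, hi]
  have hj₀n : j₀ ∈ range n := mem_range.2 (by omega)
  have key : 2 * ∑ i ∈ (range n).erase j₀, (A i + 1) / 2 + A j₀ + 1 ≤ 2 ^ n := by
    rcases hj₀ with h | h
    · have h1 := add_sum_erase (range n) (fun i => (A i + 1) / 2) hj₀n
      omega
    · have h1 := add_sum_erase (range n) (fun i => A i / 2) hj₀n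
      have h2 : ∑ i ∈ (range n).erase j₀, (A i + 1) / 2 = ∑ i ∈ (range n).erase j₀, A i / 2 := by
        apply sum_congr rfl
        intro i hi
        have := h i (mem_of_mem_erase hi)
        omega
      have h3 := h j₀ hj₀n
      omega
  have hpow : 2 ^ n = 2 * 2 ^ (n - 1) := by
    rw [← pow_succ']; congr 1; omega
  refine ⟨fun i => if i = j₀ then 2 ^ n - 1 - 2 * ∑ i ∈ (range n).erase j₀, (A i + 1) / 2
    else 2 * ((A i + 1) / 2), ?_, ?_, j₀, hj₀n, ?_, ?_⟩
  · intro i
    rw [← hAa i]
    by_cases hi : (i : ℕ) = j₀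
    · simp only [hi, if_true]; omega
    · simp only [hi, if_false]; omega
  · rw [← add_sum_erase (range n) _ hj₀n]
    simp only [if_true]
    have h1 : ∑ x ∈ (range n).erase j₀, (if x = j₀ then 2 ^ n - 1 -
        2 * ∑ i ∈ (range n).erase j₀, (A i + 1) / 2 else 2 * ((A x + 1) / 2)) =
        2 * ∑ i ∈ (range n).erase j₀, (A i + 1) / 2 := by
      rw [mul_sum]
      apply sum_congr rfl
      intro x hx
      simp [ne_of_mem_erase hx]
    rw [h1]
    omega
  · simp only [if_true]; omega
  · intro i _ hi
    simp only [hi, if_false]; omega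

lemma contained {k n : ℕ} (hk : 1 ≤ k) (hkn : k ≤ n) (a : Fin k → ℕ)
    (hb : 2 * largerClass a ≤ 2 ^ n) : starlike a ⊑ cube n := by
  obtain ⟨a', ha', hsum, hodd⟩ := extend hk hkn a hb
  obtain ⟨P, e, hP, hD⟩ := star n (by omega) (range n) a' (card_range n) hsum hodd
  have hmem : ∀ i : Fin k, (i : ℕ) ∈ range n := fun i => mem_range.2 (by omega)
  have hlen : ∀ i : Fin k, (P i).length = a' i := by
    intro i
    have := (hP i (hmem i)).len
    simpa using this
  have hlt : ∀ (i : Fin k) (j : Fin (a i)), (j : ℕ) < (P i).length := by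
    intro i j
    rw [hlen i]
    have := ha' i
    omega
  let f : Option (Σ i : Fin k, Fin (a i)) → V n := fun x => match x with
    | none => zero n
    | some ⟨i, j⟩ => (P i)[(j : ℕ)]'(hlt i j)
  have hmemP : ∀ (i : Fin k) (j : Fin (a i)), f (some ⟨i, j⟩) ∈ P i := by
    intro i j
    exact List.getElem_mem _
  have hzero : ∀ (i : Fin k), zero n ∉ P i := fun i =>
    (List.nodup_cons.1 (hP i (hmem i)).nodup).1
  have hinj : Function.Injective f := by
    intro x y hxy
    match x, y with
    | none, none => rfl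
    | none, some ⟨i, j⟩ =>
      exfalso
      apply hzero i
      have := hmemP i j
      rw [← hxy] at this
      exact this
    | some ⟨i, j⟩, none =>
      exfalso
      apply hzero i
      have := hmemP i j
      rw [hxy] at this
      exact this
    | some ⟨i, j⟩, some ⟨i', j'⟩ =>
      by_cases h : i = i'
      · subst h
        have hnd := (List.nodup_cons.1 (hP i (hmem i)).nodup).2
        have h3 : (P i)[(j : ℕ)]'(hlt i j) = (P i)[(j' : ℕ)]'(hlt i j') := hxy
        have h2 : (j : ℕ) = j' := (hnd.getElem_inj_iff).1 h3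
        have : j = j' := Fin.ext h2
        rw [this]
      · exfalso
        have h1 := hmemP i j
        have h2 := hmemP i' j'
        rw [← hxy] at h2
        exact hD i (hmem i) i' (hmem i') (fun e => h (Fin.ext e)) h1 h2
  have hstep : ∀ x y : Option (Σ i : Fin k, Fin (a i)),
      (match x, y with
        | none, some ⟨_, j⟩ => (j : ℕ) = 0
        | some ⟨i, j⟩, some ⟨i', j'⟩ => i = i' ∧ (j' : ℕ) = j + 1
        | _, _ => False) → Adj (f x) (f y) := by
    intro x y h
    match x, y with
    | none, none => exact h.elim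
    | some _, none => exact h.elim
    | none, some ⟨i, j⟩ =>
      have hj : (j : ℕ) = 0 := h
      have hc := (hP i (hmem i)).chain
      rw [List.isChain_iff_getElem] at hc
      have h2 := hc 0 (by simp; have := hlt i j; omega)
      simp only [List.getElem_cons_zero, List.getElem_cons_succ] at h2
      have h3 : f (some ⟨i, j⟩) = (P i)[0]'(by have := hlt i j; omega) := by
        show (P i)[(j : ℕ)]'(hlt i j) = _
        simp only [hj]
      rw [h3]
      exact h2
    | some ⟨i, j⟩, some ⟨i', j'⟩ =>
      obtain ⟨rfl, hj⟩ := h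
      have hc := (hP i (hmem i)).chain
      rw [List.isChain_iff_getElem] at hc
      have h2 := hc (j + 1) (by simp; have := hlt i j'; omega)
      simp only [List.getElem_cons_succ] at h2
      have h3 : f (some ⟨i, j'⟩) = (P i)[(j : ℕ) + 1]'(by have := hlt i j'; omega) := by
        show (P i)[(j' : ℕ)]'(hlt i j') = _
        simp only [hj]
      rw [h3]
      exact h2
  refine ⟨⟨⟨f, ?_⟩, hinj⟩⟩
  intro x y hxy
  rw [cube_adj]
  unfold starlike at hxy
  rw [SimpleGraph.fromRel_adj] at hxy
  rcases hxy.2 with h | h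
  · exact hstep x y h
  · exact (hstep y x h).symm

end upper

/-- **The cubical dimension of starlike trees.** Let `k ≥ 1` and `a_1, …, a_k ≥ 1` (the starlike
trees are the case `k ≥ 3`), and let `β` be the size of the larger colour class of
`S(a_1, …, a_k)`. Then `S(a_1, …, a_k)` is isomorphic to a subgraph of `Q_n` if and only if
`k ≤ n` and `2 β ≤ 2 ^ n`, and its cubical dimension is `max (k, 1 + ⌈log₂ β⌉)`. -/
theorem result {k : ℕ} (hk : 1 ≤ k) (a : Fin k → ℕ) (ha : ∀ i, 1 ≤ a i) :
    (∀ n, starlike a ⊑ cube n ↔ k ≤ n ∧ 2 * largerClass a ≤ 2 ^ n) ∧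
    cubicalDimension (starlike a) = max k (1 + Nat.clog 2 (largerClass a)) := by
  have h1 : ∀ n, starlike a ⊑ cube n ↔ k ≤ n ∧ 2 * largerClass a ≤ 2 ^ n := by
    intro n
    constructor
    · rintro ⟨φ⟩
      exact ⟨k_le ha φ, class_le hk ha φ⟩
    · rintro ⟨h1, h2⟩
      exact contained hk h1 a h2
  refine ⟨h1, ?_⟩
  have h2 : ∀ n, 1 ≤ n → (2 * largerClass a ≤ 2 ^ n ↔ 1 + Nat.clog 2 (largerClass a) ≤ n) := by
    intro n hn
    obtain ⟨m, rfl⟩ : ∃ m, n = m + 1 := ⟨n - 1, by omega⟩
    have h3 := Nat.clog_le_iff_le_pow (b := 2) (by norm_num) (x := largerClass a) (y := m)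
    have h4 : 2 ^ (m + 1) = 2 * 2 ^ m := by ring
    constructor
    · intro h
      have := h3.2 (by omega)
      omega
    · intro h
      have := h3.1 (by omega)
      omega
  have h3 : {n | starlike a ⊑ cube n} = Set.Ici (max k (1 + Nat.clog 2 (largerClass a))) := by
    ext n
    rw [Set.mem_Ici, max_le_iff]
    change starlike a ⊑ cube n ↔ _
    rw [h1 n]
    constructor
    · rintro ⟨h4, h5⟩
      exact ⟨h4, (h2 n (by omega)).1 h5⟩
    · rintro ⟨h4, h5⟩
      exact ⟨h4, (h2 n (by omega)).2 h5⟩
  unfold cubicalDimension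
  rw [h3, csInf_Ici]

end Pool.Agent.Results.MP_5dded2_co.StarlikeCubicalDimension
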